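import Pool.Agent.K3h54.LV.Zero

/-!
# Large values of Montgomery's function form few clusters at the scale `1 / log T`

The strong pair correlation conjecture says that `F(α, T) = 1 + o(1)` for `1 ≤ α ≤ A`.  The trivial
bound for `α > 1` is `F(α, T) ≤ F(0, T) ∼ log T`.  We show that large values are rare, that they form few
clusters of the length `O(1 / log T)`, and that their frequencies have an additive structure.  By the
Harnack inequality `F(α + h / log T) ≥ e ^ (-2 |h|) F(α)` a large value is accompanied by large values at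
the distances `O(1 / log T)`, so this is the natural scale.

* For every finite set `A` of real frequencies and all `T ≥ 10`,
  `∑_{α ∈ A} F(α, T) ≤ F(0, T) + (F(0, T) ∑_{α ≠ β ∈ A} F(α - β, T)) ^ (1/2)`.
* On the Riemann hypothesis, for all `ε > 0` and `N` there is `K` such that for all large `T` the
  inequality `∑_{α ∈ A} F(α, T) ≤ (1 + ε) log T` holds for every set `A` of at most `N` real numbers,
  anywhere on the line, with mutual distances between `K / log T` and `1 - ε`.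
* On the Riemann hypothesis, for all `ε, δ > 0` there is `K` such that for all large `T` and all `x` the
  set of the `α` in `[x, x + 1 - ε]` with `F(α, T) ≥ δ log T` is covered by at most `(1 + ε) / δ`
  intervals of length `2 K / log T`.  For `δ > 1 / 2` (and small `ε`) this is one interval: two clusters
  of values larger than `(1 / 2 + ε) log T` have distance at least `1 - ε`.
* On the Riemann hypothesis, if `F(α, T) ≥ δ log T` for all `α ∈ A` and `A` has at least `2 / δ` elements,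
  then `F(α - β, T) ≥ (δ² / 5) log T` for some `α ≠ β` in `A` with `|α - β| < K / log T` or
  `|α - β| > 1 - ε`.

Proof.  The weight `w(γ - γ')` is the integral of `k(t - γ) k(t - γ')` over `t`, `k(t) = c / (1 + t²)`, a
positive function.  For each `t` the vectors `(T ^ (iαγ))_γ` in the space with the weights `k(t - γ)` satisfy
the inequality of Bessel, Halász and Montgomery; the Gram matrix contains the sums at the differences
`α - β` (`Pool.Agent.K3h84.PC`, by helper84).  The bounds for `F` between `ε` and `1 - ε` and at `0` follow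
from Montgomery's theorem for test functions and the Harnack inequality.  The bound `F(θ, T) ≤ η log T` for
`K / log T ≤ |θ| ≤ ε`: by Cauchy-Schwarz and the Riemann-von Mangoldt formula `F(0, T) ≥ (1 - η) log T`; by
the Harnack inequality the interval of length `2 K / log T` around `0` has almost all of the mass
`1 + o(1)` of `F` near `0`, and so there is little mass in the rest of `[-ε, ε]`.
-/

set_option autoImplicit false

open Filter
open Complex (I)

namespace Pool.Agent.K3h54.LV.Draft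

/-- the nontrivial zeros of `ζ` with ordinate in `(0, T]` -/
def zeros (T : ℝ) : Set ℂ :=
  {s : ℂ | 0 < s.re ∧ s.re < 1 ∧ 0 < s.im ∧ s.im ≤ T ∧ riemannZeta s = 0}

/-- the multiplicity of `s` as a zero of `ζ` -/
noncomputable def mult (s : ℂ) : ℕ := analyticOrderNatAt riemannZeta s

/-- Montgomery's function `F(α, T)`:
`((T/2π) log T)⁻¹ ∑_γ ∑_γ' T ^ (iα(γ - γ')) w(γ - γ')`, `w(u) = 4 / (4 + u²)`, over the zeros with
ordinates in `(0, T]`, counted with multiplicity -/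
noncomputable def F (α T : ℝ) : ℂ :=
  ((T / (2 * Real.pi) * Real.log T : ℝ) : ℂ)⁻¹ *
    ∑ᶠ s ∈ zeros T, ∑ᶠ s' ∈ zeros T, (mult s : ℂ) * (mult s' : ℂ) *
      ((T : ℂ) ^ (I * α * (s.im - s'.im)) * (4 / (4 + (s.im - s'.im) ^ 2)))

open Pool.Agent.K3h84.PC Pool.Agent.Y749.Rig Pool.Agent.K3h54.LV

lemma F_eq {T : ℝ} (hT : 10 ≤ T) (α : ℝ) : F α T = (Fr T α : ℂ) := by
  have h := Pool.Agent.Y749.Rig.P.F_eq hT α
  exact h

lemma re_eq {T : ℝ} (hT : 10 ≤ T) (α : ℝ) : (F α T).re = Fr T α := by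
  rw [F_eq hT, Complex.ofReal_re]

/-- sums over sets with small values at the differences -/
lemma sum_le {T ε η : ℝ} (hT : 10 ≤ T) (hε : 0 < ε) {N : ℕ} (hN : 0 < N)
    (hη0 : 0 < η) (hη4 : η ≤ 1 / 4) (hηε : η ≤ ε / 4) (hηN : η ≤ (ε / (4 * N)) ^ 2)
    (h0 : Fr T 0 ≤ (1 + η) * Real.log T) (A : Finset ℝ) (hA : A.card ≤ N)
    (hs : ∀ α ∈ A, ∀ β ∈ A, α ≠ β → Fr T (α - β) ≤ η * Real.log T) :
    ∑ α ∈ A, Fr T α ≤ (1 + ε) * Real.log T := by
  have hL : 0 < Real.log T := Real.log_pos (by linarith)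
  have hN0 : (0 : ℝ) < N := by exact_mod_cast hN
  have h3 := G_bessel hT hL A (fun α => α)
  have h4 : ∑ p ∈ A.offDiag, G (Real.log T) T (p.1 - p.2) ≤ N ^ 2 * (η * Real.log T) := by
    calc ∑ p ∈ A.offDiag, G (Real.log T) T (p.1 - p.2) ≤ ∑ p ∈ A.offDiag, η * Real.log T := by
          refine Finset.sum_le_sum fun p hp => ?_
          rw [Finset.mem_offDiag] at hp
          exact hs p.1 hp.1 p.2 hp.2.1 hp.2.2
      _ = A.offDiag.card * (η * Real.log T) := by rw [Finset.sum_const, nsmul_eq_mul]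
      _ ≤ N ^ 2 * (η * Real.log T) := by
          apply mul_le_mul_of_nonneg_right _ (by positivity)
          have : (A.offDiag.card : ℝ) ≤ (A.card : ℝ) ^ 2 := by
            have h5 : A.offDiag.card ≤ A.card ^ 2 := by
              rw [Finset.offDiag_card, sq]
              exact Nat.sub_le _ _
            exact_mod_cast h5
          have hAN : (A.card : ℝ) ≤ N := by exact_mod_cast hA
          exact this.trans (pow_le_pow_left₀ (Nat.cast_nonneg _) hAN 2)
  have h5 : G (Real.log T) T 0 ≤ (1 + η) * Real.log T := h0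
  have h50 : 0 ≤ G (Real.log T) T 0 := G_nonneg hT hL 0
  have h51 : 0 ≤ ∑ p ∈ A.offDiag, G (Real.log T) T (p.1 - p.2) :=
    Finset.sum_nonneg fun p _ => G_nonneg hT hL _
  have h6 : Real.sqrt (G (Real.log T) T 0 * ∑ p ∈ A.offDiag, G (Real.log T) T (p.1 - p.2)) ≤
      ε / 2 * Real.log T := by
    apply Real.sqrt_le_iff.2
    refine ⟨by positivity, ?_⟩
    calc G (Real.log T) T 0 * ∑ p ∈ A.offDiag, G (Real.log T) T (p.1 - p.2) ≤
        ((1 + η) * Real.log T) * (N ^ 2 * (η * Real.log T)) := by gcongr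
      _ ≤ (2 * Real.log T) * (N ^ 2 * ((ε / (4 * N)) ^ 2 * Real.log T)) := by
          gcongr
          linarith
      _ = ε ^ 2 / 8 * Real.log T ^ 2 := by
          field_simp
          norm_num
      _ ≤ (ε / 2 * Real.log T) ^ 2 := by nlinarith [sq_nonneg (ε * Real.log T)]
  calc ∑ α ∈ A, Fr T α ≤ _ := h3
    _ ≤ (1 + η) * Real.log T + ε / 2 * Real.log T := add_le_add h5 h6
    _ ≤ (1 + ε) * Real.log T := by nlinarith

/-- the parameter `η` -/
lemma exists_eta {ε : ℝ} (hε : 0 < ε) {N : ℕ} (hN : 0 < N) : ∃ η : ℝ, 0 < η ∧ η ≤ 1 / 4 ∧ η ≤ ε / 4 ∧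
    η ≤ (ε / (4 * N)) ^ 2 := by
  have hN0 : (0 : ℝ) < N := by exact_mod_cast hN
  refine ⟨min (1 / 4) (min (ε / 4) ((ε / (4 * N)) ^ 2)), ?_, min_le_left _ _,
    (min_le_right _ _).trans (min_le_left _ _), (min_le_right _ _).trans (min_le_right _ _)⟩
  exact lt_min (by norm_num) (lt_min (by positivity) (by positivity))

/-- sums over sets of bounded cardinality, separated at the scale `1 / log T` -/
theorem sums (RH : RiemannHypothesis) {ε : ℝ} (hε : 0 < ε) (N : ℕ) : ∃ K : ℝ, 0 < K ∧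
    ∀ᶠ T in atTop, ∀ A : Finset ℝ, A.card ≤ N →
      (∀ α ∈ A, ∀ β ∈ A, α ≠ β → K ≤ |α - β| * Real.log T ∧ |α - β| ≤ 1 - ε) →
        ∑ α ∈ A, Fr T α ≤ (1 + ε) * Real.log T := by
  obtain ⟨η, h1, h2, h3, h4⟩ := exists_eta hε (Nat.succ_pos N)
  obtain ⟨K, hK, h⟩ := mid_small RH hε h1
  refine ⟨K, hK, ?_⟩
  filter_upwards [h, F0_le RH h1, eventually_ge_atTop 10] with T h5 h6 hT A hA hs
  exact sum_le hT hε (Nat.succ_pos N) h1 h2 h3 h4 h6 A (hA.trans (Nat.le_succ N))
    fun α hα β hβ hne => h5 _ (hs α hα β hβ hne).1 (hs α hα β hβ hne).2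

/-- a maximal separated subset of bounded cardinality -/
lemma greedy (E : Set ℝ) (r : ℝ) (hr : 0 ≤ r) (n : ℕ)
    (h : ∀ A : Finset ℝ, (∀ α ∈ A, α ∈ E) → (∀ α ∈ A, ∀ β ∈ A, α ≠ β → r < |α - β|) →
      A.card ≠ n + 1) :
    ∃ B : Finset ℝ, B.card ≤ n ∧ (∀ β ∈ B, β ∈ E) ∧ (∀ α ∈ B, ∀ β ∈ B, α ≠ β → r < |α - β|) ∧
      ∀ α ∈ E, ∃ β ∈ B, |α - β| ≤ r := by
  classical
  -- sets of the cardinality `k` exist, or there is a maximal one
  have key : ∀ k : ℕ, k ≤ n + 1 → (∃ A : Finset ℝ, A.card = k ∧ (∀ α ∈ A, α ∈ E) ∧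
      (∀ α ∈ A, ∀ β ∈ A, α ≠ β → r < |α - β|)) ∨
      ∃ B : Finset ℝ, B.card ≤ n ∧ (∀ β ∈ B, β ∈ E) ∧ (∀ α ∈ B, ∀ β ∈ B, α ≠ β → r < |α - β|) ∧
        ∀ α ∈ E, ∃ β ∈ B, |α - β| ≤ r := by
    intro k
    induction k with
    | zero => intro _; exact Or.inl ⟨∅, rfl, by simp, by simp⟩
    | succ k ih =>
      intro hk
      rcases ih (by omega) with ⟨A, h1, h2, h3⟩ | h1
      · by_cases h4 : ∀ α ∈ E, ∃ β ∈ A, |α - β| ≤ r
        · exact Or.inr ⟨A, by omega, h2, h3, h4⟩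
        · push Not at h4
          obtain ⟨α, hα, h5⟩ := h4
          left
          have hnot : α ∉ A := fun hmem => by
            have := h5 α hmem
            rw [sub_self, abs_zero] at this
            linarith
          refine ⟨insert α A, ?_, ?_, ?_⟩
          · rw [Finset.card_insert_of_notMem hnot, h1]
          · intro β hβ
            rcases Finset.mem_insert.1 hβ with rfl | hβ
            · exact hα
            · exact h2 β hβ
          · intro β hβ γ hγ hne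
            rcases Finset.mem_insert.1 hβ with e1 | e1 <;> rcases Finset.mem_insert.1 hγ with e2 | e2
            · exact absurd (e1.trans e2.symm) hne
            · rw [e1]
              exact h5 γ e2
            · rw [e2, abs_sub_comm]
              exact h5 β e1
            · exact h3 β e1 γ e2 hne
      · exact Or.inr h1
  rcases key (n + 1) le_rfl with ⟨A, h1, h2, h3⟩ | h1
  · exact absurd h1 (h A h2 h3)
  · exact h1

/-- the clusters of the large values -/
theorem clusters (RH : RiemannHypothesis) {ε δ : ℝ} (hε : 0 < ε) (hδ : 0 < δ) : ∃ K : ℝ, 0 < K ∧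
    ∀ᶠ T in atTop, ∀ x : ℝ, ∃ B : Finset ℝ, (B.card : ℝ) * δ ≤ 1 + ε ∧
      (∀ β ∈ B, x ≤ β ∧ β ≤ x + (1 - ε) ∧ δ * Real.log T ≤ Fr T β) ∧
      ∀ α : ℝ, x ≤ α → α ≤ x + (1 - ε) → δ * Real.log T ≤ Fr T α →
        ∃ β ∈ B, |α - β| * Real.log T ≤ K := by
  obtain ⟨N, hN⟩ : ∃ N : ℕ, N = ⌊(1 + ε) / δ⌋₊ + 1 := ⟨_, rfl⟩
  obtain ⟨K, hK, h⟩ := sums RH hε N
  refine ⟨K, hK, ?_⟩
  filter_upwards [h, eventually_ge_atTop 10] with T h1 hT x
  have hL : 0 < Real.log T := Real.log_pos (by linarith)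
  obtain ⟨E, hE⟩ : ∃ E : Set ℝ, E = {α | x ≤ α ∧ α ≤ x + (1 - ε) ∧ δ * Real.log T ≤ Fr T α} := ⟨_, rfl⟩
  have hcard : ∀ A : Finset ℝ, (∀ α ∈ A, α ∈ E) →
      (∀ α ∈ A, ∀ β ∈ A, α ≠ β → K / Real.log T < |α - β|) → A.card ≤ N →
        (A.card : ℝ) * δ ≤ 1 + ε := by
    intro A hA hs hAN
    have h2 := h1 A hAN fun α hα β hβ hne => by
      have h3 := hs α hα β hβ hne
      rw [div_lt_iff₀ hL] at h3
      refine ⟨h3.le, ?_⟩
      have h4 := hA α hα
      have h5 := hA β hβ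
      rw [hE] at h4 h5
      rw [abs_le]
      exact ⟨by linarith [h4.1, h5.2.1], by linarith [h5.1, h4.2.1]⟩
    have h3 : (A.card : ℝ) * (δ * Real.log T) ≤ ∑ α ∈ A, Fr T α := by
      rw [← nsmul_eq_mul]
      refine Finset.card_nsmul_le_sum A _ _ fun α hα => ?_
      have := hA α hα
      rw [hE] at this
      exact this.2.2
    have h4 := h3.trans h2
    rw [← mul_assoc] at h4
    exact le_of_mul_le_mul_right h4 hL
  obtain ⟨B, b1, b2, b3, b4⟩ := greedy E (K / Real.log T) (by positivity) ⌊(1 + ε) / δ⌋₊ (by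
    intro A hA hs hc
    have h2 := hcard A hA hs (by rw [hc, hN])
    have h3 : (A.card : ℝ) ≤ (1 + ε) / δ := by rwa [le_div_iff₀ hδ]
    rw [hc] at h3
    have h4 := Nat.lt_floor_add_one ((1 + ε) / δ)
    push_cast at h3
    linarith)
  refine ⟨B, hcard B b2 b3 (by omega), fun β hβ => ?_, fun α h2 h3 h4 => ?_⟩
  · have := b2 β hβ
    rw [hE] at this
    exact this
  · obtain ⟨β, hβ, h5⟩ := b4 α (by rw [hE]; exact ⟨h2, h3, h4⟩)
    rw [le_div_iff₀ hL] at h5
    exact ⟨β, hβ, h5⟩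

/-- among many large values there are two with a large value at the difference -/
theorem differences (RH : RiemannHypothesis) {ε δ : ℝ} (hε : 0 < ε) (hδ : 0 < δ) : ∃ K : ℝ, 0 < K ∧
    ∀ᶠ T in atTop, ∀ A : Finset ℝ, 2 / δ ≤ (A.card : ℝ) →
      (∀ α ∈ A, δ * Real.log T ≤ Fr T α) →
        ∃ α ∈ A, ∃ β ∈ A, α ≠ β ∧ δ ^ 2 / 5 * Real.log T ≤ Fr T (α - β) ∧
          (|α - β| * Real.log T < K ∨ 1 - ε < |α - β|) := by
  obtain ⟨K, hK, h⟩ := mid_small RH hε (show 0 < δ ^ 2 / 10 by positivity)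
  refine ⟨K, hK, ?_⟩
  filter_upwards [h, F0_le RH (by norm_num : (0 : ℝ) < 1 / 20), eventually_ge_atTop 10] with
    T h2 h1 hT A hA1 hA2
  have hL : 0 < Real.log T := Real.log_pos (by linarith)
  obtain ⟨n, hn⟩ : ∃ n : ℕ, n = ⌈2 / δ⌉₊ := ⟨_, rfl⟩
  have hnA : n ≤ A.card := by
    rw [hn]
    exact Nat.ceil_le.2 hA1
  obtain ⟨B, hBA, hBn⟩ := Finset.exists_subset_card_eq hnA
  have hn1 : 2 / δ ≤ (n : ℝ) := by rw [hn]; exact Nat.le_ceil _
  have hn0 : (0 : ℝ) < n := lt_of_lt_of_le (by positivity) hn1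
  have hnδ : 2 ≤ n * δ := by
    rwa [div_le_iff₀ hδ] at hn1
  by_contra hcon
  push Not at hcon
  have key : ∀ p ∈ B.offDiag, G (Real.log T) T (p.1 - p.2) ≤ δ ^ 2 / 5 * Real.log T := by
    intro p hp
    rw [Finset.mem_offDiag] at hp
    rw [G_log]
    by_contra h3
    push Not at h3
    obtain ⟨h4, h4'⟩ := hcon p.1 (hBA hp.1) p.2 (hBA hp.2.1) hp.2.2 h3.le
    have h5 := h2 (p.1 - p.2) h4 h4'
    nlinarith [mul_pos (pow_pos hδ 2) hL]
  have hb := G_bessel hT hL B (fun α => α)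
  have h3 : ∑ p ∈ B.offDiag, G (Real.log T) T (p.1 - p.2) ≤ n ^ 2 * (δ ^ 2 / 5 * Real.log T) := by
    calc _ ≤ ∑ p ∈ B.offDiag, δ ^ 2 / 5 * Real.log T := Finset.sum_le_sum key
      _ = B.offDiag.card * (δ ^ 2 / 5 * Real.log T) := by rw [Finset.sum_const, nsmul_eq_mul]
      _ ≤ n ^ 2 * (δ ^ 2 / 5 * Real.log T) := by
          apply mul_le_mul_of_nonneg_right _ (by positivity)
          have h5 : B.offDiag.card ≤ B.card ^ 2 := by
            rw [Finset.offDiag_card, sq]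
            exact Nat.sub_le _ _
          rw [hBn] at h5
          exact_mod_cast h5
  have h4 : (n : ℝ) * (δ * Real.log T) ≤ ∑ j ∈ B, G (Real.log T) T j := by
    rw [← hBn, ← nsmul_eq_mul]
    refine Finset.card_nsmul_le_sum B _ _ fun α hα => ?_
    rw [G_log]
    exact hA2 α (hBA hα)
  have h50 : 0 ≤ G (Real.log T) T 0 := G_nonneg hT hL 0
  have h51 : 0 ≤ ∑ p ∈ B.offDiag, G (Real.log T) T (p.1 - p.2) :=
    Finset.sum_nonneg fun p _ => G_nonneg hT hL _
  have h5 : G (Real.log T) T 0 ≤ 21 / 20 * Real.log T := by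
    rw [G_log]
    linarith
  have h6 : Real.sqrt (G (Real.log T) T 0 * ∑ p ∈ B.offDiag, G (Real.log T) T (p.1 - p.2)) ≤
      23 / 50 * (n * δ) * Real.log T := by
    apply Real.sqrt_le_iff.2
    refine ⟨by positivity, ?_⟩
    calc G (Real.log T) T 0 * ∑ p ∈ B.offDiag, G (Real.log T) T (p.1 - p.2) ≤
        (21 / 20 * Real.log T) * (n ^ 2 * (δ ^ 2 / 5 * Real.log T)) := by gcongr
      _ = 21 / 100 * ((n * δ) * Real.log T) ^ 2 := by ring
      _ ≤ (23 / 50 * (n * δ) * Real.log T) ^ 2 := by nlinarith [sq_nonneg ((n * δ) * Real.log T)]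
  have h7 : (n : ℝ) * (δ * Real.log T) ≤ 21 / 20 * Real.log T + 23 / 50 * (n * δ) * Real.log T := by
    linarith
  have h8 : (n : ℝ) * δ ≤ 21 / 20 + 23 / 50 * (n * δ) := by
    have : ((n : ℝ) * δ) * Real.log T ≤ (21 / 20 + 23 / 50 * (n * δ)) * Real.log T := by
      calc _ = (n : ℝ) * (δ * Real.log T) := by ring
        _ ≤ _ := h7
        _ = _ := by ring
    exact le_of_mul_le_mul_right this hL
  linarith

/-- **Large values of Montgomery's function.**  (1) `F` is real and nonnegative.  (2) The Bessel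
inequality for all finite sets of frequencies.  On the Riemann hypothesis: (3) `∑ F(α, T) ≤ (1 + ε) log T`
over every set of at most `N` reals with mutual distances between `K / log T` and `1 - ε`; (4) the
large values in an interval of length `1 - ε` form at most `(1 + ε) / δ` clusters of length
`2 K / log T`; (5) among at least `2 / δ` frequencies with `F ≥ δ log T` there are two with
`F ≥ (δ² / 5) log T` at their difference, which is not between `K / log T` and `1 - ε` in absolute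
value. -/
theorem result :
    (∀ T : ℝ, 10 ≤ T → ∀ α : ℝ, (F α T).im = 0 ∧ 0 ≤ (F α T).re) ∧
    (∀ T : ℝ, 10 ≤ T → ∀ A : Finset ℝ, ∑ α ∈ A, (F α T).re ≤
      (F 0 T).re + Real.sqrt ((F 0 T).re * ∑ p ∈ A.offDiag, (F (p.1 - p.2) T).re)) ∧
    (RiemannHypothesis → ∀ ε : ℝ, 0 < ε →
      (∀ N : ℕ, ∃ K T₀ : ℝ, ∀ T : ℝ, T₀ ≤ T → ∀ A : Finset ℝ, A.card ≤ N →
        (∀ α ∈ A, ∀ β ∈ A, α ≠ β → K / Real.log T ≤ |α - β| ∧ |α - β| ≤ 1 - ε) →
          ∑ α ∈ A, (F α T).re ≤ (1 + ε) * Real.log T) ∧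
      ∀ δ : ℝ, 0 < δ → ∃ K T₀ : ℝ, ∀ T : ℝ, T₀ ≤ T →
        (∀ x : ℝ, ∃ B : Finset ℝ, (B.card : ℝ) ≤ (1 + ε) / δ ∧
          ∀ α : ℝ, x ≤ α → α ≤ x + (1 - ε) → δ * Real.log T ≤ (F α T).re →
            ∃ β ∈ B, |α - β| ≤ K / Real.log T) ∧
        ∀ A : Finset ℝ, 2 / δ ≤ (A.card : ℝ) → (∀ α ∈ A, δ * Real.log T ≤ (F α T).re) →
          ∃ α ∈ A, ∃ β ∈ A, α ≠ β ∧ δ ^ 2 / 5 * Real.log T ≤ (F (α - β) T).re ∧
            (|α - β| < K / Real.log T ∨ 1 - ε < |α - β|)) := by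
  refine ⟨fun T hT α => ?_, fun T hT A => ?_, fun RH ε hε => ⟨fun N => ?_, fun δ hδ => ?_⟩⟩
  · rw [F_eq hT, Complex.ofReal_im, Complex.ofReal_re]
    exact ⟨rfl, Fr_nonneg hT α⟩
  · have hL : 0 < Real.log T := Real.log_pos (by linarith)
    have h := G_bessel hT hL A (fun α => α)
    simp_rw [re_eq hT]
    exact h
  · obtain ⟨K, hK, h⟩ := sums RH hε N
    obtain ⟨T₀, hT₀⟩ := (h.and (eventually_ge_atTop 10)).exists_forall_of_atTop
    refine ⟨K, T₀, fun T hT A hA hs => ?_⟩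
    obtain ⟨h1, hT10⟩ := hT₀ T hT
    have hL : 0 < Real.log T := Real.log_pos (by linarith)
    simp_rw [re_eq hT10]
    refine h1 A hA fun α hα β hβ hne => ?_
    obtain ⟨h2, h3⟩ := hs α hα β hβ hne
    rw [div_le_iff₀ hL] at h2
    exact ⟨h2, h3⟩
  · obtain ⟨K₁, hK₁, h₁⟩ := clusters RH hε hδ
    obtain ⟨K₂, hK₂, h₂⟩ := differences RH hε hδ
    obtain ⟨T₀, hT₀⟩ := ((h₁.and h₂).and (eventually_ge_atTop 10)).exists_forall_of_atTop
    refine ⟨max K₁ K₂, T₀, fun T hT => ?_⟩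
    obtain ⟨⟨h1, h2⟩, hT10⟩ := hT₀ T hT
    have hL : 0 < Real.log T := Real.log_pos (by linarith)
    refine ⟨fun x => ?_, fun A hA1 hA2 => ?_⟩
    · obtain ⟨B, b1, -, b3⟩ := h1 x
      refine ⟨B, by rwa [le_div_iff₀ hδ], fun α h3 h4 h5 => ?_⟩
      rw [re_eq hT10] at h5
      obtain ⟨β, hβ, h6⟩ := b3 α h3 h4 h5
      refine ⟨β, hβ, ?_⟩
      rw [le_div_iff₀ hL]
      exact h6.trans (le_max_left _ _)
    · simp_rw [re_eq hT10] at hA2 ⊢
      obtain ⟨α, hα, β, hβ, hne, h3, h4⟩ := h2 A hA1 hA2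
      refine ⟨α, hα, β, hβ, hne, h3, ?_⟩
      rcases h4 with h4 | h4
      · left
        rw [lt_div_iff₀ hL]
        exact h4.trans_le (le_max_right _ _)
      · exact Or.inr h4

end Pool.Agent.K3h54.LV.Draft
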