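import Pool.Agent.K3h84.PC.FF

/-!
# The lower bound for the form factor at the origin
-/

set_option autoImplicit false

open MeasureTheory Set Filter Topology

namespace Pool.Agent.K3h54.LV

open Pool.Agent.K3h84.PC
open Pool.Agent.Y749.Rig (Fr ZZ mm nT nT_pos mm_nonneg one_lt_log Fr_nonneg Fr_cont Fr_even near0 ZZ_eq
  mem_ZZ)

/-- the integral of the Cauchy kernel over a long interval -/
lemma cauchy_piece {B T g : ℝ} (hg0 : 0 ≤ g) (hgT : g ≤ T) :
    2 * Real.arctan B ≤ ∫ t in (-B)..(T + B), 1 / (1 + (t - g) ^ 2) := by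
  have h := intervalIntegral.integral_comp_sub_right (a := -B) (b := T + B)
    (fun t : ℝ => 1 / (1 + t ^ 2)) g
  rw [h, integral_one_div_one_add_sq]
  have h1 : Real.arctan B ≤ Real.arctan (T + B - g) := Real.arctan_strictMono.monotone (by linarith)
  have h2 : Real.arctan (-B - g) ≤ Real.arctan (-B) := Real.arctan_strictMono.monotone (by linarith)
  rw [Real.arctan_neg] at h2
  linarith

lemma Q0_low {ι : Type*} (A : Finset ι) (m g : ι → ℝ) (hm : ∀ n ∈ A, 0 ≤ m n) {B T lam : ℝ}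
    (hB : 0 ≤ B) (hT : 0 ≤ T) (hlam : 0 ≤ lam) (hg0 : ∀ n ∈ A, 0 ≤ g n) (hgT : ∀ n ∈ A, g n ≤ T) :
    2 * lam * (2 * Real.arctan B * ∑ n ∈ A, m n) - lam ^ 2 * (T + 2 * B) ≤
      Real.pi / 2 * Q A m g 0 := by
  rw [← V_integral]
  have hi := V_integrable A m g 0
  have h1 : ∫ t in (-B)..(T + B), ‖S A (lc m g t) g 0‖ ^ 2 ≤ ∫ t, ‖S A (lc m g t) g 0‖ ^ 2 := by
    rw [intervalIntegral.integral_of_le (by linarith)]
    exact setIntegral_le_integral hi (ae_of_all _ fun t => sq_nonneg _)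
  refine le_trans ?_ h1
  obtain ⟨f, hfd⟩ : ∃ f : ℝ → ℝ, f = fun t => ∑ n ∈ A, m n * (1 / (1 + (t - g n) ^ 2)) := ⟨_, rfl⟩
  have hf : ∀ t, ‖S A (lc m g t) g 0‖ ^ 2 = f t ^ 2 := by
    intro t
    rw [V_eq, hfd, sq, Finset.sum_mul_sum]
    refine Finset.sum_congr rfl fun n _ => Finset.sum_congr rfl fun n' _ => ?_
    rw [zero_mul, Real.cos_zero]
    ring
  have hkc : ∀ n, Continuous fun t : ℝ => m n * (1 / (1 + (t - g n) ^ 2)) := fun n =>
    continuous_const.mul (continuous_const.div (by fun_prop) fun t => by positivity)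
  have hfc : Continuous f := by
    rw [hfd]
    exact continuous_finsetSum _ fun n _ => hkc n
  have h2 : ∫ t in (-B)..(T + B), (2 * lam * f t - lam ^ 2) ≤
      ∫ t in (-B)..(T + B), ‖S A (lc m g t) g 0‖ ^ 2 := by
    refine intervalIntegral.integral_mono_on (by linarith) ?_ hi.intervalIntegrable fun t _ => ?_
    · exact ((continuous_const.mul hfc).sub continuous_const).intervalIntegrable _ _
    · rw [hf]
      nlinarith [sq_nonneg (f t - lam)]
  refine le_trans ?_ h2
  have h3 : 2 * Real.arctan B * ∑ n ∈ A, m n ≤ ∫ t in (-B)..(T + B), f t := by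
    have e : ∫ t in (-B)..(T + B), f t =
        ∑ n ∈ A, ∫ t in (-B)..(T + B), m n * (1 / (1 + (t - g n) ^ 2)) := by
      rw [hfd]
      exact intervalIntegral.integral_finsetSum fun n _ => (hkc n).intervalIntegrable _ _
    rw [e, Finset.mul_sum]
    refine Finset.sum_le_sum fun n hn => ?_
    rw [intervalIntegral.integral_const_mul, mul_comm]
    exact mul_le_mul_of_nonneg_left (cauchy_piece (hg0 n hn) (hgT n hn)) (hm n hn)
  have e2 : ∫ t in (-B)..(T + B), (2 * lam * f t - lam ^ 2) =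
      2 * lam * (∫ t in (-B)..(T + B), f t) - lam ^ 2 * (T + 2 * B) := by
    have i1 : IntervalIntegrable (fun t => 2 * lam * f t) volume (-B) (T + B) :=
      (continuous_const.mul hfc).intervalIntegrable _ _
    have i2 : IntervalIntegrable (fun _ : ℝ => lam ^ 2) volume (-B) (T + B) :=
      continuous_const.intervalIntegrable _ _
    rw [intervalIntegral.integral_sub i1 i2, intervalIntegral.integral_const_mul,
      intervalIntegral.integral_const, smul_eq_mul]
    ring
  rw [e2]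
  have := mul_le_mul_of_nonneg_left h3 (show 0 ≤ 2 * lam by positivity)
  linarith

/-- the number of zeros -/
lemma count_low {k : ℝ} (hk : 0 < k) : ∀ᶠ T in atTop, (1 - k) * nT T ≤ ∑ s ∈ ZZ T, mm s := by
  obtain ⟨T0, hT0, h⟩ := Pool.Agent.W54.TCF.NT_asymp' k hk
  filter_upwards [eventually_ge_atTop T0] with T hT
  have h1 := (h T hT).1
  have h2 : ∑ s ∈ ZZ T, mm s = (H370.NN riemannZeta 0 T : ℝ) := by
    rw [ZZ_eq]
    exact Pool.Agent.Y744.sum_Zt T
  rw [h2]
  refine le_trans (le_of_eq ?_) h1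
  unfold nT
  ring

/-- the value at the origin is at least `(1 - η) log T` -/
theorem F0_ge {η : ℝ} (hη : 0 < η) : ∀ᶠ T in atTop, (1 - η) * Real.log T ≤ Fr T 0 := by
  have hpi := Real.pi_pos
  rcases le_or_gt 1 η with h1 | h1
  · filter_upwards [eventually_ge_atTop 10] with T hT
    have hL := one_lt_log (show 3 ≤ T by linarith)
    have := Fr_nonneg hT 0
    nlinarith
  obtain ⟨k, hk⟩ : ∃ k : ℝ, k = η / 5 := ⟨_, rfl⟩
  have hk0 : 0 < k := by rw [hk]; positivity
  have hk1 : k < 1 / 5 := by rw [hk]; linarith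
  -- the length `B`
  obtain ⟨B, hB0, hB⟩ : ∃ B : ℝ, 0 < B ∧ Real.pi * (1 - k) ≤ 2 * Real.arctan B := by
    have h2 : ∀ᶠ B : ℝ in atTop, Real.pi / 2 - Real.pi * k / 2 < Real.arctan B := by
      have h3 : Tendsto Real.arctan atTop (𝓝 (Real.pi / 2)) :=
        Real.tendsto_arctan_atTop.mono_right nhdsWithin_le_nhds
      refine h3.eventually (lt_mem_nhds ?_)
      have : 0 < Real.pi * k := by positivity
      linarith
    obtain ⟨B, h4, h5⟩ := (h2.and (eventually_gt_atTop 0)).exists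
    exact ⟨B, h5, by linarith⟩
  filter_upwards [count_low hk0, eventually_ge_atTop 10, eventually_ge_atTop (2 * B / k)] with
    T hN hT hTB
  have hL := one_lt_log (show 3 ≤ T by linarith)
  have hLp : 0 < Real.log T := by linarith
  have hn := nT_pos hT
  rw [div_le_iff₀ hk0] at hTB
  have hz : ∀ s ∈ ZZ T, 0 ≤ s.im ∧ s.im ≤ T := by
    intro s hs
    rw [mem_ZZ] at hs
    obtain ⟨-, -, -, h4, h5⟩ := hs
    exact ⟨h4, h5⟩
  have hone : Real.log T / Real.log T = 1 := div_self hLp.ne'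
  have h2 := Q0_low (ZZ T) mm (fun s => s.im * (Real.log T / Real.log T)) (fun _ _ => mm_nonneg _)
    (B := B) (T := T) (lam := Real.log T / 2) hB0.le (by linarith) (by positivity)
    (fun s hs => by rw [hone, mul_one]; exact (hz s hs).1)
    (fun s hs => by rw [hone, mul_one]; exact (hz s hs).2)
  rw [← G_log, G_eq hT hLp, zero_mul, le_div_iff₀ hn]
  have h3 : Real.pi * (1 - k) * ((1 - k) * nT T) ≤ 2 * Real.arctan B * ∑ s ∈ ZZ T, mm s := by
    apply mul_le_mul hB hN
    · exact mul_nonneg (by linarith) hn.le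
    · have : 0 < Real.pi * (1 - k) := mul_pos hpi (by linarith)
      linarith
  have h4 : 2 * (Real.log T / 2) * (Real.pi * (1 - k) * ((1 - k) * nT T)) ≤
      2 * (Real.log T / 2) * (2 * Real.arctan B * ∑ s ∈ ZZ T, mm s) :=
    mul_le_mul_of_nonneg_left h3 (by positivity)
  have h5 : (Real.log T / 2) ^ 2 * (T + 2 * B) ≤ (Real.log T / 2) ^ 2 * ((1 + k) * T) := by
    apply mul_le_mul_of_nonneg_left _ (by positivity)
    linarith
  have e1 : nT T = T * Real.log T / (2 * Real.pi) := rfl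
  have e2 : 2 * (Real.log T / 2) * (Real.pi * (1 - k) * ((1 - k) * nT T)) =
      Real.log T ^ 2 * T * ((1 - k) ^ 2 / 2) := by
    rw [e1]
    field_simp
  have e3 : (Real.log T / 2) ^ 2 * ((1 + k) * T) = Real.log T ^ 2 * T * ((1 + k) / 4) := by ring
  have h6 : Real.log T ^ 2 * T * ((1 - 5 * k) / 4) ≤ Real.log T ^ 2 * T * ((1 - k) ^ 2 / 2 - (1 + k) / 4) := by
    apply mul_le_mul_of_nonneg_left _ (by positivity)
    nlinarith [sq_nonneg k]
  have h7 : Real.log T ^ 2 * T * ((1 - 5 * k) / 4) ≤ Real.pi / 2 *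
      Q (ZZ T) mm (fun s => s.im * (Real.log T / Real.log T)) 0 := by
    nlinarith
  have e4 : Real.log T ^ 2 * T * ((1 - 5 * k) / 4) =
      Real.pi / 2 * ((1 - η) * Real.log T * nT T) := by
    rw [e1, hk]
    field_simp
    ring
  rw [e4] at h7
  exact le_of_mul_le_mul_left h7 (by positivity)

/-- the values near the origin, outside of the spike -/
theorem near_small (RH : RiemannHypothesis) {η : ℝ} (hη : 0 < η) : ∃ K : ℝ, 0 < K ∧ ∃ δ : ℝ, 0 < δ ∧
    ∀ᶠ T in atTop, ∀ θ : ℝ, K ≤ |θ| * Real.log T → |θ| ≤ δ → Fr T θ ≤ η * Real.log T := by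
  obtain ⟨k, hk⟩ : ∃ k : ℝ, k = min (1 / 2) (η / 6) := ⟨_, rfl⟩
  have hk0 : 0 < k := by rw [hk]; exact lt_min (by norm_num) (by positivity)
  have hk2 : k ≤ 1 / 2 := by rw [hk]; exact min_le_left _ _
  have hk6 : k ≤ η / 6 := by rw [hk]; exact min_le_right _ _
  obtain ⟨δ, hδ, h⟩ := near0 RH hk0
  have hexp : Real.exp (-(2 * (1 / k))) ≤ k := by
    rw [Real.exp_neg]
    have h1 : 1 / k ≤ Real.exp (2 * (1 / k)) := by
      have := Real.add_one_le_exp (2 * (1 / k))
      have h2 : 0 < 1 / k := by positivity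
      linarith
    calc (Real.exp (2 * (1 / k)))⁻¹ ≤ (1 / k)⁻¹ := inv_anti₀ (by positivity) h1
      _ = k := by rw [one_div, inv_inv]
  refine ⟨2 * (1 / k), by positivity, δ / 2, by positivity, ?_⟩
  have hlog : ∀ᶠ T : ℝ in atTop, 2 * (1 / k) / δ ≤ Real.log T :=
    Real.tendsto_log_atTop.eventually_ge_atTop _
  filter_upwards [h δ hδ le_rfl, F0_ge hk0, hlog, eventually_ge_atTop 10] with T h1 h2 h3 hT
  have hL := one_lt_log (show 3 ≤ T by linarith)
  have hLp : 0 < Real.log T := by linarith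
  have hF := Fr_nonneg hT
  have hc := Fr_cont T
  obtain ⟨a, ha⟩ : ∃ a : ℝ, a = 1 / k / Real.log T := ⟨_, rfl⟩
  have ha0 : 0 < a := by rw [ha]; positivity
  have haL : 2 * Real.log T * a = 2 * (1 / k) := by
    rw [ha]
    field_simp
  have haδ : a ≤ δ / 2 := by
    rw [div_le_iff₀ hδ] at h3
    rw [ha, div_le_iff₀ hLp]
    linarith
  have hii : ∀ x y : ℝ, IntervalIntegrable (Fr T) volume x y := fun x y => hc.intervalIntegrable _ _
  have hpos : ∀ x y : ℝ, x ≤ y → 0 ≤ ∫ α in x..y, Fr T α := fun x y hxy =>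
    intervalIntegral.integral_nonneg hxy fun α _ => hF α
  -- the spike
  have h4 := mass_low hT ha0 0
  rw [zero_sub, zero_add, haL] at h4
  have h5 : (1 - k) ^ 2 ≤ ∫ α in (-a)..a, Fr T α := by
    refine le_trans ?_ h4
    rw [le_div_iff₀ hLp]
    have h6 : (1 - k) * Real.log T * (1 - k) ≤ Fr T 0 * (1 - Real.exp (-(2 * (1 / k)))) := by
      apply mul_le_mul h2 (by linarith) (by linarith) (hF 0)
    nlinarith
  have key : ∀ θ : ℝ, 2 * (1 / k) ≤ θ * Real.log T → θ ≤ δ / 2 → Fr T θ ≤ η * Real.log T := by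
    intro θ hθ1 hθ2
    have hθa : 2 * a ≤ θ := by
      rw [ha]
      have : 2 * (1 / k / Real.log T) = 2 * (1 / k) / Real.log T := by ring
      rw [this, div_le_iff₀ hLp]
      exact hθ1
    have h6 : ∫ α in (θ - a)..(θ + a), Fr T α ≤ 3 * k := by
      have s1 := intervalIntegral.integral_add_adjacent_intervals (hii (-δ) (-a)) (hii (-a) a)
      have s2 := intervalIntegral.integral_add_adjacent_intervals (hii (-δ) a) (hii a (θ - a))
      have s3 := intervalIntegral.integral_add_adjacent_intervals (hii (-δ) (θ - a))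
        (hii (θ - a) (θ + a))
      have s4 := intervalIntegral.integral_add_adjacent_intervals (hii (-δ) (θ + a))
        (hii (θ + a) δ)
      have p1 := hpos (-δ) (-a) (by linarith)
      have p2 := hpos a (θ - a) (by linarith)
      have p3 := hpos (θ + a) δ (by linarith)
      nlinarith
    have h7 := (mass_low hT ha0 θ).trans h6
    rw [haL, div_le_iff₀ hLp] at h7
    have h8 : Fr T θ * (1 / 2) ≤ Fr T θ * (1 - Real.exp (-(2 * (1 / k)))) :=
      mul_le_mul_of_nonneg_left (by linarith) (hF θ)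
    nlinarith
  intro θ hθ1 hθ2
  rcases le_total 0 θ with h6 | h6
  · rw [abs_of_nonneg h6] at hθ1 hθ2
    exact key θ hθ1 hθ2
  · rw [abs_of_nonpos h6] at hθ1 hθ2
    rw [← Fr_even]
    exact key (-θ) hθ1 hθ2

/-- the values between `K / log T` and `1 - ε` -/
theorem mid_small (RH : RiemannHypothesis) {ε η : ℝ} (hε : 0 < ε) (hη : 0 < η) :
    ∃ K : ℝ, 0 < K ∧ ∀ᶠ T in atTop, ∀ θ : ℝ, K ≤ |θ| * Real.log T → |θ| ≤ 1 - ε →
      Fr T θ ≤ η * Real.log T := by
  obtain ⟨K, hK, δ, hδ, h⟩ := near_small RH hη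
  refine ⟨K, hK, ?_⟩
  have hm : 0 < min ε δ := lt_min hε hδ
  filter_upwards [h, F_small RH hm hη] with T h1 h2 θ hθ1 hθ2
  rcases le_or_gt |θ| δ with h3 | h3
  · exact h1 θ hθ1 h3
  · exact h2 θ ((min_le_right _ _).trans h3.le) (by linarith [min_le_left ε δ])

end Pool.Agent.K3h54.LV
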